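import Pool.Agent.X294.MT.Ratio

/-!
# MP_039c6c_co, Q1: monotone triangle evaluations as rational multiples of ASM numbers

For `n ≥ k ≥ 4` let `T_k(n) = α(n+1; 1, …, k-3, k-1, k, k-1, k, k+1, …, n)`.  For every `k ≥ 4`
there are polynomials `p`, `q` in one variable with `deg p - deg q = k - 3`, `q(n) ≠ 0` and
`T_k(n) = p(n) / q(n) · A_{n-1}` for all `n ≥ k`.
-/

namespace Pool.Agent.Results.MP_039c6c_co.RationalMultiples

open MvPolynomial Pool.Agent.X144.MT
open Pool.Agent.X294.MT (alL I I_length Tk_eq Ar_eq Br refinedN qk pk qk_natDegree pk_natDegree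
  qk_ne main_eval)

/-- The entry number `s` (counted from `1`) of the sequence
`1, 2, …, k-3, k-1, k, k-1, k, k+1, …`. -/
def tk (k s : ℕ) : ℤ :=
  if s + 3 ≤ k then (s : ℤ) else if s + 1 ≤ k then (s : ℤ) + 1 else (s : ℤ) - 1

theorem I_getElem (m : ℕ) : ∀ (c : ℤ) (t : ℕ) (h : t < (I c m).length), (I c m)[t] = c + t := by
  induction m with
  | zero => intro c t h; simp [I] at h
  | succ m ih =>
    intro c t h
    cases t with
    | zero => simp [I]
    | succ t =>
      simp only [I, List.getElem_cons_succ]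
      rw [ih]
      push_cast; ring

theorem I_eq_iv (m : ℕ) : ∀ c : ℤ, I c m = iv c m := by
  induction m with
  | zero => intro c; rfl
  | succ m ih => intro c; rw [I, iv, ih]

/-- the word of `T_k(n)` for `k = p + 3`, `n = p + 3 + r` -/
def word (p r : ℕ) : List ℤ :=
  I 1 p ++ ((p : ℤ) + 2) :: ((p : ℤ) + 3) :: ((p : ℤ) + 2) :: ((p : ℤ) + 3) :: I ((p : ℤ) + 4) r

theorem word_length (p r : ℕ) : (word p r).length = p + 3 + r + 1 := by
  simp [word, I_length]; ring

theorem ofFn_tk (p r : ℕ) :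
    List.ofFn (fun t : Fin (p + 3 + r + 1) => tk (p + 3) ((t : ℕ) + 1)) = word p r := by
  apply List.ext_getElem
  · rw [word_length, List.length_ofFn]
  · intro t h1 h2
    rw [List.getElem_ofFn]
    simp only [List.length_ofFn] at h1
    simp only [word, tk]
    by_cases ht : t < p
    · rw [List.getElem_append_left (by rw [I_length]; exact ht), I_getElem, if_pos (by omega)]
      push_cast; ring
    · rw [List.getElem_append_right (by rw [I_length]; omega)]
      obtain ⟨s, rfl⟩ := Nat.exists_eq_add_of_le (not_lt.1 ht)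
      simp only [I_length, Nat.add_sub_cancel_left]
      rw [if_neg (by omega)]
      match s with
      | 0 => rw [if_pos (by omega)]; simp; ring
      | 1 => rw [if_pos (by omega)]; simp; ring
      | 2 => rw [if_neg (by omega)]; simp
      | 3 => rw [if_neg (by omega)]; simp
      | s + 4 =>
        rw [if_neg (by omega)]
        simp only [List.getElem_cons_succ]
        rw [I_getElem]
        push_cast; ring

theorem numASM_eq (m : ℕ) : (numASM m : ℤ) = alL (I 1 m) := by
  unfold numASM alL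
  rw [ncard_ASM, I_length, I_eq_iv]
  rfl

theorem Br_zero (N : ℕ) : (Br N 0 : ℚ) = numASM N := by
  have : Br N 0 = (numASM N : ℤ) := by
    rw [numASM_eq]
    simp [Br, I]
  rw [this]
  push_cast
  rfl

/-- the value of the polynomial as a list value -/
theorem eval_word (p r : ℕ) (P : MvPolynomial (Fin (p + 3 + r + 1)) ℚ) (hP : IsAlpha P) :
    eval (fun t : Fin (p + 3 + r + 1) => (tk (p + 3) ((t : ℕ) + 1) : ℚ)) P =
      ∑ i ∈ Finset.range (p + 1), ((p : ℚ) + 1 - i) * (Br (p + r + 2) i : ℚ) := by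
  rw [hP.eval_eq (fun t => tk (p + 3) ((t : ℕ) + 1)), ofFn_tk]
  have h : al (p + 3 + r + 1) (word p r) = alL (word p r) := by
    unfold alL
    rw [word_length]
  rw [h]
  unfold word
  rw [Tk_eq]
  push_cast
  apply Finset.sum_congr rfl
  intro i _
  rw [show p + r + 3 = (p + r + 2) + 1 by ring, Ar_eq]

/-- **Main result.**  There is exactly one polynomial in `n + 1` variables that counts the monotone
triangles with a given strictly increasing bottom row; its value at `1, 2, …, m + 1` is the number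
of alternating sign matrices of size `m + 1`.  For every `k ≥ 4` there are polynomials `p`, `q` in
one variable with `deg p - deg q = k - 3` such that for all `n ≥ k` the number `q(n)` is not zero
and the value of the monotone triangle polynomial at `1, …, k-3, k-1, k, k-1, k, k+1, …, n` is
`p(n) / q(n)` times the number of alternating sign matrices of size `n - 1`; explicitly this value
is `A_{n-1} ∑_{j=1}^{k-2} (k-1-j) C(n+j-2, n-1) C(2n-1-j, n-1) / C(2n-2, n-1)`. -/
theorem result :
    (∀ n : ℕ, ∃! P : MvPolynomial (Fin (n + 1)) ℚ, IsAlpha P) ∧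
    (∀ (m : ℕ) (P : MvPolynomial (Fin (m + 1)) ℚ), IsAlpha P →
      eval (fun t : Fin (m + 1) => ((t : ℕ) : ℚ) + 1) P = numASM (m + 1)) ∧
    (∀ k : ℕ, 4 ≤ k → ∃ p q : Polynomial ℚ, p ≠ 0 ∧ q ≠ 0 ∧
      (p.natDegree : ℤ) - q.natDegree = k - 3 ∧
      ∀ n : ℕ, k ≤ n → q.eval (n : ℚ) ≠ 0 ∧
        ∀ P : MvPolynomial (Fin (n + 1)) ℚ, IsAlpha P →
          eval (fun t : Fin (n + 1) => (tk k ((t : ℕ) + 1) : ℚ)) P
            = p.eval (n : ℚ) / q.eval (n : ℚ) * numASM (n - 1)) ∧
    (∀ k n : ℕ, 4 ≤ k → k ≤ n → ∀ P : MvPolynomial (Fin (n + 1)) ℚ, IsAlpha P →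
      eval (fun t : Fin (n + 1) => (tk k ((t : ℕ) + 1) : ℚ)) P
        = numASM (n - 1) * ∑ j ∈ Finset.Icc 1 (k - 2), ((k : ℚ) - 1 - j) *
          ((n + j - 2).choose (n - 1) : ℚ) * ((2 * n - 1 - j).choose (n - 1) : ℚ) /
            ((2 * n - 2).choose (n - 1) : ℚ)) := by
  refine ⟨existsUnique_alpha, ?_, ?_, ?_⟩
  · intro m P hP
    have h := hP.eval_eq (fun t : Fin (m + 1) => 1 + ((t : ℕ) : ℤ))
    rw [X294.MT.ofFn_I] at h
    have h2 : al (m + 1) (I 1 (m + 1)) = (numASM (m + 1) : ℤ) := by
      rw [numASM_eq]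
      unfold alL
      rw [I_length]
    rw [h2] at h
    rw [← show ((numASM (m + 1) : ℤ) : ℚ) = (numASM (m + 1) : ℚ) from by push_cast; rfl, ← h]
    congr 2
    funext t
    push_cast; ring
  · intro k hk
    obtain ⟨p, rfl⟩ : ∃ p, k = p + 3 := ⟨k - 3, by omega⟩
    have hp : 1 ≤ p := by omega
    refine ⟨pk p, qk p, ?_, ?_, ?_, ?_⟩
    · intro h
      have := pk_natDegree p hp
      rw [h] at this
      simp at this
      omega
    · intro h
      have := qk_natDegree p
      rw [h] at this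
      simp at this
      omega
    · rw [pk_natDegree p hp, qk_natDegree p]
      push_cast; ring
    · intro n hn
      obtain ⟨r, rfl⟩ : ∃ r, n = p + 3 + r := ⟨n - (p + 3), by omega⟩
      have e : ((p + 3 + r : ℕ) : ℚ) = ((p + r + 2 : ℕ) : ℚ) + 1 := by push_cast; ring
      have e2 : p + 3 + r - 1 = p + r + 2 := by omega
      have hq := qk_ne p (p + r + 2) (by omega)
      rw [e, e2]
      refine ⟨hq, fun P hP => ?_⟩
      rw [eval_word p r P hP, ← Br_zero]
      rw [div_mul_eq_mul_div, eq_div_iff hq]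
      exact main_eval p (p + r + 2) (by omega)
  · intro k n hk hn P hP
    obtain ⟨p, rfl⟩ : ∃ p, k = p + 3 := ⟨k - 3, by omega⟩
    obtain ⟨r, rfl⟩ : ∃ r, n = p + 3 + r := ⟨n - (p + 3), by omega⟩
    rw [eval_word p r P hP, Finset.mul_sum]
    have e1 : Finset.Icc 1 (p + 3 - 2) = Finset.Ico 1 (p + 2) := by
      ext x; simp only [Finset.mem_Icc, Finset.mem_Ico]; omega
    rw [e1, Finset.sum_Ico_eq_sum_range, show p + 2 - 1 = p + 1 by omega]
    apply Finset.sum_congr rfl
    intro i hi
    have hi' : i ≤ p := by simpa [Nat.lt_succ_iff] using hi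
    have h := refinedN (p + r + 2) i (by omega)
    rw [Br_zero] at h
    have hne : ((2 * (p + r + 2)).choose (p + r + 2) : ℚ) ≠ 0 := by
      have : 0 < (2 * (p + r + 2)).choose (p + r + 2) := Nat.choose_pos (by omega)
      positivity
    have f1 : p + 3 + r - 1 = p + r + 2 := by omega
    have f2 : p + 3 + r + (1 + i) - 2 = p + r + 2 + i := by omega
    have f3 : 2 * (p + 3 + r) - 1 - (1 + i) = 2 * (p + r + 2) - i := by omega
    have f4 : 2 * (p + 3 + r) - 2 = 2 * (p + r + 2) := by omega
    rw [f1, f2, f3, f4]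
    have h2 : (Br (p + r + 2) i : ℚ) = (numASM (p + r + 2) : ℚ) *
        ((p + r + 2 + i).choose (p + r + 2) : ℚ) * ((2 * (p + r + 2) - i).choose (p + r + 2) : ℚ) /
          ((2 * (p + r + 2)).choose (p + r + 2) : ℚ) := by
      rw [eq_div_iff hne]; exact h
    rw [h2]
    push_cast
    ring

end Pool.Agent.Results.MP_039c6c_co.RationalMultiples
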